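import Pool.Agent.W525.CB.Stm

/-!
# The negative statement
-/

open AlgebraicGeometry CategoryTheory Order

namespace Pool.Agent.W63.CB.NEG

open Pool.Agent.H187R3 Pool.Agent.W525.CB

section
variable {X : Scheme.{0}} [IsIntegral X] [IsLocallyNoetherian X]

lemma ord_one (y : X) : Scheme.ord (1 : X.functionField) y = 0 := by
  have h := Scheme.ord_mul (X := X) (x := y) (f := 1) (g := 1) one_ne_zero one_ne_zero
  rw [one_mul] at h
  omega

lemma ord_inv {g : X.functionField} (hg : g ≠ 0) (y : X) :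
    Scheme.ord g⁻¹ y = - Scheme.ord g y := by
  have h := Scheme.ord_mul (X := X) (x := y) (f := g) (g := g⁻¹) hg (inv_ne_zero hg)
  rw [mul_inv_cancel₀ hg, ord_one] at h
  omega

lemma ord_pow {g : X.functionField} (hg : g ≠ 0) (n : ℕ) (y : X) :
    Scheme.ord (g ^ n) y = n * Scheme.ord g y := by
  induction n with
  | zero => rw [pow_zero, ord_one]; simp
  | succ n ih =>
    rw [pow_succ, Scheme.ord_mul (pow_ne_zero n hg) hg, ih]
    push_cast
    ring

end

lemma ord_kmap {k : Type} [Field k] {X : Scheme.{0}} [IsIntegral X] [IsLocallyNoetherian X]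
    (f : X ⟶ Spec (CommRingCat.of k)) {c : k} (hc : c ≠ 0) (x : X) :
    Scheme.ord (kmap f c) x = 0 := by
  have hu : IsUnit (((Scheme.ΓSpecIso (CommRingCat.of k)).inv ≫ f.appTop).hom c) :=
    (IsUnit.mk0 c hc).map _
  have hne : Nonempty (⊤ : X.Opens) := ⟨⟨x, trivial⟩⟩
  exact Scheme.ord_of_isUnit (X := X) (U := ⊤) hu (x := x) trivial

theorem main : S_HART → S_ORD → S_HOM → S_GLOB → S_NEG := by
  intro hHart hOrd hHom hGlob k _ _ X Z _ _ _ _ f _ h _ hXn hZn H KX KZ gX gZ r hH0 hgX hgZ hHreg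
    hHc hKX hKZ hex
  rintro ⟨Δ, hΔ, m, hm, hloc, φ, hφ, hord⟩
  have hF0 : ∀ a : Z.functionField, a ≠ 0 → functionFieldMap h a ≠ 0 :=
    fun a ha => (map_ne_zero (functionFieldMap h)).2 ha
  choose e he using hloc
  -- regularity of pulled back functions
  have hpull : ∀ (x : X) (a : Z.functionField),
      a ∈ (algebraMap (Z.presheaf.stalk (h x)) Z.functionField).range →
      functionFieldMap h a ∈ (algebraMap (X.presheaf.stalk x) X.functionField).range := by
    intro x a ha
    have h1 := (hHom X Z h X.functionField (RingHom.id _) (functionFieldMap h)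
      (fun _ => rfl) x).1
    obtain ⟨b, hb⟩ := ha
    have h2 : functionFieldMap h a ∈ (locIn (functionFieldMap h) (h x) : Set X.functionField) :=
      ⟨b, by rw [← hb]; rfl⟩
    obtain ⟨c, hc⟩ := h1 h2
    exact ⟨c, hc⟩
  set δ : Z → Z.functionField := fun z => e z * (gZ ^ m * (H z) ^ ((r + 1) * m))⁻¹ with hδ
  have hden : ∀ z, gZ ^ m * (H z) ^ ((r + 1) * m) ≠ 0 := fun z =>
    mul_ne_zero (pow_ne_zero _ hgZ) (pow_ne_zero _ (hH0 z))
  have hδ0 : ∀ z, δ z ≠ 0 := fun z => mul_ne_zero (he z).1 (inv_ne_zero (hden z))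
  have hδreg : ∀ z, δ z ∈ (algebraMap (Z.presheaf.stalk z) Z.functionField).range := by
    intro z
    refine hHart Z hZn z (δ z) (hδ0 z) fun y hy hyz => ?_
    have h1 := (he z).2 y hy hyz
    have h2 : Scheme.ord (δ z) y = Scheme.ord (e z) y -
        (m * Scheme.ord gZ y + ((r + 1) * m : ℕ) * Scheme.ord (H z) y) := by
      simp only [hδ]
      rw [Scheme.ord_mul (he z).1 (inv_ne_zero (hden z)), ord_inv (hden z),
        Scheme.ord_mul (pow_ne_zero _ hgZ) (pow_ne_zero _ (hH0 z)), ord_pow hgZ, ord_pow (hH0 z)]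
      ring
    have h3 := hKZ y hy
    have h4 := hHc z y hyz hy
    have h5 := hΔ y hy
    rw [h4] at h3
    have h6 : ((Scheme.ord (δ z) y : ℤ) : ℚ) = m * Δ y := by
      rw [h2]
      push_cast
      rw [h1]
      simp only [h3]
      push_cast
      ring
    have h7 : (0 : ℚ) ≤ ((Scheme.ord (δ z) y : ℤ) : ℚ) := by
      rw [h6]
      positivity
    exact_mod_cast h7
  -- orders of the pulled back functions
  have hHord : ∀ x : X, coheight x = 1 →
      0 ≤ Scheme.ord (functionFieldMap h (H (h x))) x := fun x hx =>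
    (hOrd X hXn x hx _ (hF0 _ (hH0 _))).2 (hpull x _ (hHreg _))
  have hδord : ∀ x : X, coheight x = 1 →
      0 ≤ Scheme.ord (functionFieldMap h (δ (h x))) x := fun x hx =>
    (hOrd X hXn x hx _ (hF0 _ (hδ0 _))).2 (hpull x _ (hδreg _))
  set ψ : X.functionField := (φ * (functionFieldMap h gZ) ^ m)⁻¹ * gX ^ m with hψ
  have hd1 : φ * (functionFieldMap h gZ) ^ m ≠ 0 :=
    mul_ne_zero hφ (pow_ne_zero _ (hF0 _ hgZ))
  have hψ0 : ψ ≠ 0 := mul_ne_zero (inv_ne_zero hd1) (pow_ne_zero _ hgX)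
  have hkey : ∀ x : X, coheight x = 1 → Scheme.ord ψ x =
      Scheme.ord (functionFieldMap h (δ (h x))) x +
        m * Scheme.ord (functionFieldMap h (H (h x))) x := by
    intro x hx
    have h1 := hord x hx (e (h x)) (he (h x))
    have h2 := hKX x hx
    have h3 : Scheme.ord ψ x = m * Scheme.ord gX x - (Scheme.ord φ x +
        m * Scheme.ord (functionFieldMap h gZ) x) := by
      simp only [hψ]
      rw [Scheme.ord_mul (inv_ne_zero hd1) (pow_ne_zero _ hgX), ord_inv hd1, Scheme.ord_mul hφ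
        (pow_ne_zero _ (hF0 _ hgZ)), ord_pow hgX, ord_pow (hF0 _ hgZ)]
      ring
    have h4 : Scheme.ord (functionFieldMap h (δ (h x))) x =
        Scheme.ord (functionFieldMap h (e (h x))) x -
        (m * Scheme.ord (functionFieldMap h gZ) x +
          ((r + 1) * m : ℕ) * Scheme.ord (functionFieldMap h (H (h x))) x) := by
      simp only [hδ]
      have h5 : functionFieldMap h gZ ^ m * (functionFieldMap h (H (h x))) ^ ((r + 1) * m) ≠ 0 :=
        mul_ne_zero (pow_ne_zero _ (hF0 _ hgZ)) (pow_ne_zero _ (hF0 _ (hH0 _)))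
      rw [map_mul, map_inv₀, map_mul, map_pow, map_pow,
        Scheme.ord_mul (hF0 _ (he (h x)).1) (inv_ne_zero h5), ord_inv h5,
        Scheme.ord_mul (pow_ne_zero _ (hF0 _ hgZ)) (pow_ne_zero _ (hF0 _ (hH0 _))),
        ord_pow (hF0 _ hgZ), ord_pow (hF0 _ (hH0 _))]
      ring
    rw [h3, h4]
    rw [h2] at h1
    push_cast
    linear_combination h1
  have hψreg : ∀ x : X, ψ ∈ (algebraMap (X.presheaf.stalk x) X.functionField).range := by
    intro x
    refine hHart X hXn x ψ hψ0 fun y hy _ => ?_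
    rw [hkey y hy]
    have h1 := hHord y hy
    have h2 := hδord y hy
    positivity
  obtain ⟨c, hc⟩ := hGlob k X f ψ hψreg
  have hc0 : c ≠ 0 := by
    rintro rfl
    rw [map_zero] at hc
    exact hψ0 hc.symm
  obtain ⟨x, hx, hne⟩ := hex
  have h1 := hkey x hx
  rw [← hc, ord_kmap f hc0] at h1
  have h2 := hHord x hx
  have h3 := hδord x hx
  have h4 : 0 < (m : ℤ) := by exact_mod_cast hm
  have h5 : 0 < Scheme.ord (functionFieldMap h (H (h x))) x := lt_of_le_of_ne h2 (Ne.symm hne)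
  have h6 : 0 < (m : ℤ) * Scheme.ord (functionFieldMap h (H (h x))) x := mul_pos h4 h5
  omega

end Pool.Agent.W63.CB.NEG
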